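import Pool.Agent.REV.StmtsC
import Pool.Agent.Helper55_PB.Rot

set_option autoImplicit false

/-!
# Squad REV: row CYI
-/

namespace Pool.Agent.REV.H12

open MeasureTheory Module Set Filter
open scoped RealInnerProductSpace Pointwise Topology ENNReal
open Pool.Agent.Helper55_PB Pool.Agent.Helper28_PB Pool.Agent.REV

/-- Row CYI. -/
theorem cyi (cys : CysStmt) : CyiStmt := by
  intro E _ _ _ _ _ hn e H R he hH hR K hK hsup
  obtain ⟨h1, h2, h3, -, h5, -⟩ := cys (E := E) hn e H R he hH hR
  have hne : (cyl e H R).Nonempty := ⟨0, interior_subset h3⟩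
  have key : ∀ u : E, supportFn K u = supportFn (cyl e H R) u := by
    intro u
    obtain ⟨u', hu', hu⟩ : ∃ u' : E, ‖u'‖ = 1 ∧ u = ‖u‖ • u' := by
      by_cases h0 : u = 0
      · exact ⟨e, he, by rw [h0, norm_zero, zero_smul]⟩
      · have h6 : ‖u‖ ≠ 0 := norm_ne_zero_iff.2 h0
        refine ⟨‖u‖⁻¹ • u, ?_, ?_⟩
        · rw [norm_smul, norm_inv, norm_norm, inv_mul_cancel₀ h6]
        · rw [smul_smul, mul_inv_cancel₀ h6, one_smul]
    rw [hu, supportFn_smul hK.cpt hK.ne (norm_nonneg u),
      supportFn_smul h1 hne (norm_nonneg u), hsup u' hu', h5 u']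
  apply Set.Subset.antisymm
  · intro x hx
    apply mem_of_support_le h1 h2 hne
    intro u
    rw [← key u]
    exact inner_le_supportFn hK.cpt hx u
  · intro x hx
    apply mem_of_support_le hK.cpt hK.cvx hK.ne
    intro u
    rw [key u]
    exact inner_le_supportFn h1 hx u

end Pool.Agent.REV.H12
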