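import Pool.Agent.REV.StmtsU3
import Pool.Agent.Helper65_REV.GEN
import Pool.Agent.Helper65_REV.TAU

set_option autoImplicit false

/-!
# Squad REV (MP_bbfd73_gt), row EL3: `El` constant implies `g = 1`, `n ≥ 3`
-/

namespace Pool.Agent.REV.H12

open Pool.Agent.REV Set

theorem el3 : El3Stmt := by
  intro n C g f hn hF hg hK
  obtain ⟨tau, -, -⟩ := Pool.Agent.REV.H65.tau g hg
  obtain ⟨K, hK0⟩ : ∃ K, K = El n g f 0 := ⟨_, rfl⟩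
  rw [← hK0] at hK
  have h0m : (0 : ℝ) ∈ Icc (0 : ℝ) 1 := ⟨le_rfl, zero_le_one⟩
  have h1m : (1 : ℝ) ∈ Icc (0 : ℝ) 1 := ⟨zero_le_one, le_rfl⟩
  have hf0 : f 0 = K := by
    rw [hK0]
    unfold El
    norm_num
  have hf1 : g ^ (((n : ℝ) + 1) / 2) * f 1 = K := by
    rw [← hK 1 h1m]
    unfold El
    congr 2
    ring
  obtain ⟨α, hα⟩ : ∃ α : ℝ, α = ∫ ρ in (0 : ℝ)..1, (1 - ρ ^ 2) ^ (((n : ℝ) - 2) / 2) * K :=
    ⟨_, rfl⟩
  obtain ⟨β, hβ⟩ : ∃ β : ℝ, β = ∫ ρ in (0 : ℝ)..1,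
      ρ ^ 2 * (1 - ρ ^ 2) ^ (((n : ℝ) - 4) / 2) * K := ⟨_, rfl⟩
  have hA : ∀ c ∈ Icc (0 : ℝ) 1, RA' n g f c = α := by
    intro c hc
    rw [hα]
    unfold RA'
    apply intervalIntegral.integral_congr
    intro ρ hρ
    rw [uIcc_of_le zero_le_one] at hρ
    show _ * El n g f (ta g c ρ) = _ * K
    rw [hK _ (tau c ρ hc.1 hc.2 hρ.1 hρ.2).2.2]
  have hB : ∀ c ∈ Icc (0 : ℝ) 1, RB' n g f c = β := by
    intro c hc
    rw [hβ]
    unfold RB'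
    apply intervalIntegral.integral_congr
    intro ρ hρ
    rw [uIcc_of_le zero_le_one] at hρ
    show _ * El n g f (ta g c ρ) = _ * K
    rw [hK _ (tau c ρ hc.1 hc.2 hρ.1 hρ.2).2.2]
  have e0 := hF.eq 0 h0m
  have e1 := hF.eq 1 h1m
  have s0 : Real.sqrt (1 - (0 : ℝ) ^ 2) = 1 := by norm_num
  have s1 : Real.sqrt (1 - (1 : ℝ) ^ 2) = 0 := by norm_num
  have q0 : (1 : ℝ) + (g - 1) * 0 ^ 2 = 1 := by ring
  have q1 : (1 : ℝ) + (g - 1) * 1 ^ 2 = g := by ring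
  have p0 : (0 : ℝ) < 1 + (g - 1) * 0 ^ 2 := by rw [q0]; exact one_pos
  have p1 : (0 : ℝ) < 1 + (g - 1) * 1 ^ 2 := by rw [q1]; exact hg
  rw [s0, H65.cvag n g 1 f p1, H65.cvbg n g 1 f p1, hA 1 h1m, hB 1 h1m] at e0
  rw [s1, H65.cvag n g 0 f p0, H65.cvbg n g 0 f p0, hA 0 h0m, hB 0 h0m] at e1
  rw [q1] at e0
  rw [q0, Real.one_rpow, Real.one_rpow, one_mul, one_mul] at e1
  -- compare
  have hcomb : g ^ (-(3 / 2) : ℝ) * (g ^ (-(1 / 2) : ℝ)) ^ (n - 2) =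
      g ^ (-(((n : ℝ) + 1) / 2)) := by
    rw [← Real.rpow_natCast, ← Real.rpow_mul hg.le, ← Real.rpow_add hg,
      Nat.cast_sub (by omega : 2 ≤ n)]
    congr 1
    push_cast
    ring
  have hf1pos := hF.pos 1 h1m
  have e2 : f 0 = g ^ (-(((n : ℝ) + 1) / 2)) * f 1 := by
    rw [e0, e1, ← hcomb, mul_pow]
    ring
  have e3 : g ^ (((n : ℝ) + 1) / 2) = g ^ (-(((n : ℝ) + 1) / 2)) := by
    have h : g ^ (((n : ℝ) + 1) / 2) * f 1 = g ^ (-(((n : ℝ) + 1) / 2)) * f 1 := by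
      rw [hf1, ← hf0, e2]
    exact mul_right_cancel₀ hf1pos.ne' h
  have e4 := congrArg Real.log e3
  rw [Real.log_rpow hg, Real.log_rpow hg] at e4
  have hn' : (0 : ℝ) ≤ (n : ℝ) := Nat.cast_nonneg n
  have hlog : Real.log g = 0 := by
    have h1 : ((n : ℝ) + 1) * Real.log g = 0 := by linarith
    rcases mul_eq_zero.1 h1 with h2 | h2
    · linarith
    · exact h2
  exact Real.eq_one_of_pos_of_log_eq_zero hg hlog

end Pool.Agent.REV.H12
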