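import Pool.Agent.REV.StmtsU
import Pool.Agent.Helper65_REV.TAU

set_option autoImplicit false

/-!
# Squad REV, row JEL
-/

namespace Pool.Agent.REV.H12

open Set MeasureTheory

theorem jel : JelStmt := by
  intro n g c f hn hg hc0 hc1 hf
  have hn' : (4 : ℝ) ≤ n := by exact_mod_cast hn
  have htau := (Pool.Agent.REV.H65.tau g hg).1
  have hta : ContinuousOn (fun ρ => ta g c ρ) (Icc 0 1) := by
    unfold ta
    refine ContinuousOn.div (by fun_prop) (by fun_prop) ?_
    intro ρ hρ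
    exact (Real.sqrt_pos.2 (htau c ρ hc0 hc1 hρ.1 hρ.2).1).ne'
  have hmap : MapsTo (fun ρ => ta g c ρ) (Icc 0 1) (Icc 0 1) :=
    fun ρ hρ => (htau c ρ hc0 hc1 hρ.1 hρ.2).2.2
  have hfta : ContinuousOn (fun ρ => f (ta g c ρ)) (Icc 0 1) := hf.comp hta hmap
  have hEl : ContinuousOn (fun ρ => El n g f (ta g c ρ)) (Icc 0 1) := by
    unfold El
    refine ContinuousOn.mul ?_ hfta
    refine ContinuousOn.rpow_const ?_ (fun x _ => Or.inr (by linarith))
    exact continuousOn_const.add (continuousOn_const.mul (hta.pow 2))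
  refine ⟨hEl, ?_⟩
  have h1 : ContinuousOn (fun ρ : ℝ => (1 - ρ ^ 2) ^ (((n : ℝ) - 2) / 2) * El n g f (ta g c ρ))
      (Icc 0 1) := by
    refine ContinuousOn.mul ?_ hEl
    exact ContinuousOn.rpow_const (by fun_prop) (fun x _ => Or.inr (by linarith))
  have h2 : ContinuousOn (fun ρ : ℝ =>
      ρ ^ 2 * (1 - ρ ^ 2) ^ (((n : ℝ) - 4) / 2) * El n g f (ta g c ρ)) (Icc 0 1) := by
    refine ContinuousOn.mul (ContinuousOn.mul (by fun_prop) ?_) hEl
    exact ContinuousOn.rpow_const (by fun_prop) (fun x _ => Or.inr (by linarith))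
  have i1 : IntervalIntegrable
      (fun ρ : ℝ => (1 - ρ ^ 2) ^ (((n : ℝ) - 2) / 2) * El n g f (ta g c ρ)) volume 0 1 :=
    h1.intervalIntegrable_of_Icc zero_le_one
  have i2 : IntervalIntegrable (fun ρ : ℝ =>
      ρ ^ 2 * (1 - ρ ^ 2) ^ (((n : ℝ) - 4) / 2) * El n g f (ta g c ρ)) volume 0 1 :=
    h2.intervalIntegrable_of_Icc zero_le_one
  unfold RA' RB'
  rw [← intervalIntegral.integral_const_mul, ← intervalIntegral.integral_sub i1
    (i2.const_mul _)]
  refine intervalIntegral.integral_congr (fun ρ _ => ?_)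
  unfold kk
  ring

end Pool.Agent.REV.H12
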