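import Pool.Agent.REV.StmtsU2

set_option autoImplicit false

/-!
# Squad REV: row LFQ
-/

namespace Pool.Agent.REV.H12

open MeasureTheory Module Set Filter
open scoped RealInnerProductSpace Topology
open Pool.Agent.BPH Pool.Agent.Helper55_PB Pool.Agent.REV

/-- Differences of powers. -/
theorem lfq_pow (m : ℕ) (x y M : ℝ) (hx : 0 ≤ x) (hy : 0 ≤ y) (hxM : x ≤ M) (hyx : y ≤ x) :
    x ^ m - y ^ m ≤ m * M ^ (m - 1) * (x - y) := by
  induction m with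
  | zero => simp
  | succ m ih =>
    have hM : 0 ≤ M := hx.trans hxM
    have h1 : x ^ (m + 1) - y ^ (m + 1) = x ^ m * (x - y) + (x ^ m - y ^ m) * y := by ring
    have h2 : x ^ m * (x - y) ≤ M ^ m * (x - y) :=
      mul_le_mul_of_nonneg_right (pow_le_pow_left₀ hx hxM m) (by linarith)
    have h3 : (x ^ m - y ^ m) * y ≤ (m * M ^ (m - 1) * (x - y)) * M := by
      apply mul_le_mul ih (hyx.trans hxM) hy
      exact mul_nonneg (mul_nonneg (Nat.cast_nonneg m) (pow_nonneg hM _)) (by linarith)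
    have h4 : (m * M ^ (m - 1) * (x - y)) * M = m * M ^ m * (x - y) := by
      rcases Nat.eq_zero_or_pos m with h | h
      · subst h; simp
      · obtain ⟨l, rfl⟩ : ∃ l, m = l + 1 := ⟨m - 1, by omega⟩
        rw [Nat.add_sub_cancel]
        ring
    rw [h1, Nat.add_sub_cancel]
    push_cast
    linarith

/-- The algebraic core. -/
theorem lfq_core (m : ℕ) (Yp Yq Zp Zq M D : ℝ) (h1 : 0 ≤ Yp) (h2 : Yp ≤ M) (h3 : 0 ≤ Yq)
    (h5 : 0 ≤ Zq) (h6 : Zq ≤ M) (hD : 0 ≤ D)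
    (hY : Yp ≤ Yq + D) (hZ : Zp ≤ Zq + D) :
    Zp * Yp ^ m ≤ Zq * Yq ^ m + (M ^ m + M * (m * M ^ (m - 1))) * D := by
  have hM : 0 ≤ M := h1.trans h2
  have e1 : Zp * Yp ^ m ≤ (Zq + D) * Yp ^ m := mul_le_mul_of_nonneg_right hZ (pow_nonneg h1 m)
  have e2 : D * Yp ^ m ≤ D * M ^ m := mul_le_mul_of_nonneg_left (pow_le_pow_left₀ h1 h2 m) hD
  have e3 : Zq * Yp ^ m ≤ Zq * Yq ^ m + M * (m * M ^ (m - 1)) * D := by
    have h7 : 0 ≤ (m : ℝ) * M ^ (m - 1) := by positivity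
    rcases le_total Yp Yq with h | h
    · have h8 : Zq * Yp ^ m ≤ Zq * Yq ^ m :=
        mul_le_mul_of_nonneg_left (pow_le_pow_left₀ h1 h m) h5
      have h9 : 0 ≤ M * (m * M ^ (m - 1)) * D := mul_nonneg (mul_nonneg hM h7) hD
      linarith
    · have h8 := lfq_pow m Yp Yq M h1 h3 h2 h
      have h9 : (m : ℝ) * M ^ (m - 1) * (Yp - Yq) ≤ m * M ^ (m - 1) * D :=
        mul_le_mul_of_nonneg_left (by linarith) h7
      have h10 : Zq * (Yp ^ m - Yq ^ m) ≤ M * (m * M ^ (m - 1) * D) := by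
        apply mul_le_mul h6 (h8.trans h9) _ hM
        have := pow_le_pow_left₀ h3 h m
        linarith
      linarith
  nlinarith

/-- Row LFQ. -/
theorem lfq (rpo : RpoStmt) (lpa : LpaStmt) (lpb : LpbStmt) : LfqStmt := by
  intro n C f hn hf hC
  obtain ⟨M, hM⟩ := isCompact_Icc.exists_bound_of_continuousOn hf.cont
  have hM' : ∀ t ∈ Icc (0 : ℝ) 1, 0 < f t ∧ f t ≤ M := by
    intro t ht
    refine ⟨hf.pos t ht, ?_⟩
    have := hM t ht
    rw [Real.norm_eq_abs] at this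
    exact (le_abs_self _).trans this
  have hM0 : 0 ≤ M := by
    have := hM' 0 ⟨le_rfl, zero_le_one⟩
    linarith
  have hcl : Adm (clf f) := by
    refine ⟨(H63.clf_cont hf.cont).measurable, ?_, M, ?_⟩
    · intro t ht
      rw [H63.clf_eq ht]
      exact (hM' t ht).1.le
    · intro t ht
      rw [H63.clf_eq ht]
      exact (hM' t ht).2
  have hclM : ∀ t : ℝ, 0 < t → t < 1 → clf f t ≤ M := by
    intro t h0 h1
    rw [H63.clf_eq ⟨h0.le, h1.le⟩]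
    exact (hM' t ⟨h0.le, h1.le⟩).2
  set K1 : ℝ := (M ^ (n - 2) + M * ((n - 2 : ℕ) * M ^ (n - 2 - 1))) * (n * M) with hK1
  have hK1' : 0 ≤ K1 := by
    rw [hK1]
    positivity
  refine ⟨C * 2 ^ (n + 1) * K1, by positivity, ?_⟩
  intro p q hp hpq hq
  have hD : 0 ≤ q ^ 2 - p ^ 2 := by nlinarith
  set c := Real.sqrt (1 - p ^ 2) with hc
  set d := Real.sqrt (1 - q ^ 2) with hd
  have hc2 : c ^ 2 = 1 - p ^ 2 := Real.sq_sqrt (by nlinarith)
  have hd2 : d ^ 2 = 1 - q ^ 2 := Real.sq_sqrt (by nlinarith)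
  have hd0 : 1 / 2 ≤ d := by
    rw [hd]
    apply Real.le_sqrt_of_sq_le
    nlinarith
  have hdc : d ≤ c := Real.sqrt_le_sqrt (by linarith)
  have hc1 : c ≤ 1 := by
    rw [hc, Real.sqrt_le_left zero_le_one]
    nlinarith
  have hc0 : 0 < c := by linarith
  have hd0' : 0 < d := by linarith
  have hcI : c ∈ Icc (0 : ℝ) 1 := ⟨hc0.le, hc1⟩
  have hdI : d ∈ Icc (0 : ℝ) 1 := ⟨hd0'.le, hdc.trans hc1⟩
  obtain ⟨a1, a2, a3, a4⟩ := rpo n f M hn hf.cont hM' c hcI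
  obtain ⟨b1, b2, b3, b4⟩ := rpo n f M hn hf.cont hM' d hdI
  have hY := lpa n M p q (clf f) hn hM0 hcl hclM hp hpq hq
  have hZ := lpb n M p q (clf f) hn hM0 hcl hclM hp hpq hq
  rw [← hc, ← hd, H63.RA_clf hcI, H63.RA_clf hdI] at hY
  rw [← hc, ← hd, H63.RB_clf hcI, H63.RB_clf hdI] at hZ
  have hfp := hf.eq p ⟨hp, by linarith⟩
  have hfq := hf.eq q ⟨hp.trans hpq, by linarith⟩
  rw [← hc] at hfp
  rw [← hd] at hfq
  have hYpM : c * RA n f c ≤ M := by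
    calc c * RA n f c ≤ 1 * RA n f c := mul_le_mul_of_nonneg_right hc1 a1.le
      _ ≤ M := by rw [one_mul]; exact a3
  have hZqM : d ^ 3 * RB n f d ≤ M := by
    calc d ^ 3 * RB n f d ≤ 1 * RB n f d :=
          mul_le_mul_of_nonneg_right (pow_le_one₀ hd0'.le hdI.2) b2.le
      _ ≤ M := by rw [one_mul]; exact b4
  have hmain := lfq_core (n - 2) (c * RA n f c) (d * RA n f d) (c ^ 3 * RB n f c)
    (d ^ 3 * RB n f d) M (n * M * (q ^ 2 - p ^ 2)) (by positivity) hYpM (by positivity)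
    (by positivity) hZqM (by positivity) hY hZ
  have hn1 : n + 1 = 3 + (n - 2) := by omega
  have hfp' : c ^ (n + 1) * f p = C * ((c ^ 3 * RB n f c) * (c * RA n f c) ^ (n - 2)) := by
    rw [hfp, hn1, pow_add, mul_pow]
    ring
  have hfq' : d ^ (n + 1) * f q = C * ((d ^ 3 * RB n f d) * (d * RA n f d) ^ (n - 2)) := by
    rw [hfq, hn1, pow_add, mul_pow]
    ring
  have h1 : c ^ (n + 1) * f p ≤ d ^ (n + 1) * f q + C * (K1 * (q ^ 2 - p ^ 2)) := by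
    rw [hfp', hfq', ← mul_add]
    apply mul_le_mul_of_nonneg_left _ hC.le
    calc _ ≤ _ := hmain
      _ = _ := by rw [hK1]; ring
  have hdn : 0 < d ^ (n + 1) := pow_pos hd0' _
  have h2 : d ^ (n + 1) * f p ≤ c ^ (n + 1) * f p :=
    mul_le_mul_of_nonneg_right (pow_le_pow_left₀ hd0'.le hdc _) (hf.pos p ⟨hp, by linarith⟩).le
  have h3 : 1 ≤ 2 ^ (n + 1) * d ^ (n + 1) := by
    rw [← mul_pow]
    exact one_le_pow₀ (by linarith)
  have h4 : C * (K1 * (q ^ 2 - p ^ 2)) ≤ d ^ (n + 1) * (C * 2 ^ (n + 1) * K1 * (q ^ 2 - p ^ 2)) := by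
    have h5 : 0 ≤ C * (K1 * (q ^ 2 - p ^ 2)) := by positivity
    calc C * (K1 * (q ^ 2 - p ^ 2)) = 1 * (C * (K1 * (q ^ 2 - p ^ 2))) := (one_mul _).symm
      _ ≤ (2 ^ (n + 1) * d ^ (n + 1)) * (C * (K1 * (q ^ 2 - p ^ 2))) :=
          mul_le_mul_of_nonneg_right h3 h5
      _ = _ := by ring
  have h5 : d ^ (n + 1) * f p ≤
      d ^ (n + 1) * (f q + C * 2 ^ (n + 1) * K1 * (q ^ 2 - p ^ 2)) := by
    rw [mul_add]
    linarith
  exact le_of_mul_le_mul_left h5 hdn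

end Pool.Agent.REV.H12
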