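import Pool.Agent.REV.StmtsP3

set_option autoImplicit false

/-!
# Squad REV (MP_bbfd73_gt), row PUB: `uU f` is bounded by `M (1+s^2)^(-2)`
-/

namespace Pool.Agent.REV.H12

open Set

theorem sqinv_mem (s : ℝ) : (Real.sqrt (1 + s ^ 2))⁻¹ ∈ Ioc (0 : ℝ) 1 := by
  have h1 : (1 : ℝ) ≤ Real.sqrt (1 + s ^ 2) := by
    rw [show (1 : ℝ) = Real.sqrt 1 from Real.sqrt_one.symm]
    exact Real.sqrt_le_sqrt (by rw [Real.sqrt_one]; nlinarith [sq_nonneg s])
  exact ⟨inv_pos.mpr (by linarith), inv_le_one_of_one_le₀ h1⟩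

theorem pub : PubStmt := by
  intro f hf hpos
  obtain ⟨x, hx, hmax⟩ := isCompact_Icc.exists_isMaxOn (nonempty_Icc.mpr (zero_le_one (α := ℝ))) hf
  refine ⟨f x, ?_, ?_, ?_⟩
  · have h1 : Continuous fun s : ℝ => ((1 + s ^ 2) ^ 2)⁻¹ :=
      Continuous.inv₀ (by fun_prop) (fun s => by positivity)
    have h2 : Continuous fun s : ℝ => (Real.sqrt (1 + s ^ 2))⁻¹ :=
      Continuous.inv₀ (by fun_prop) (fun s => by
        have := (sqinv_mem s).1
        intro h0
        rw [h0] at this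
        simp at this)
    have h3 : Continuous fun s : ℝ => f (Real.sqrt (1 + s ^ 2))⁻¹ := by
      rw [← continuousOn_univ]
      exact hf.comp h2.continuousOn (fun s _ => ⟨(sqinv_mem s).1.le, (sqinv_mem s).2⟩)
    exact (h1.mul h3).continuousOn
  · intro s _
    exact mul_pos (by positivity) (hpos _ ⟨(sqinv_mem s).1.le, (sqinv_mem s).2⟩)
  · intro s _
    have h := hmax (show (Real.sqrt (1 + s ^ 2))⁻¹ ∈ Icc (0 : ℝ) 1 from
      ⟨(sqinv_mem s).1.le, (sqinv_mem s).2⟩)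
    unfold uU
    rw [mul_comm]
    exact mul_le_mul_of_nonneg_right h (by positivity)

end Pool.Agent.REV.H12
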