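import Pool.Agent.REV.StmtsA2

set_option autoImplicit false

/-!
# Squad REV, row PWI: two power integrals
-/

namespace Pool.Agent.REV.H12

open Set MeasureTheory

theorem pwi : PwiStmt := by
  constructor
  · intro α h0 h1
    refine ⟨intervalIntegral.intervalIntegrable_rpow' (by linarith), ?_⟩
    rw [integral_rpow (Or.inl (by linarith)), Real.one_rpow,
      Real.zero_rpow (by linarith : -α + 1 ≠ 0), sub_zero, neg_add_eq_sub]
  · intro β h0 h1
    have hb : (1 : ℝ) - β ≠ 0 := by linarith
    have hcont : Continuous fun r : ℝ => -((1 - r ^ 2) ^ (1 - β)) / (2 * (1 - β)) := by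
      refine Continuous.div_const (Continuous.neg ?_) _
      refine Continuous.rpow_const (by fun_prop) (fun x => Or.inr (by linarith))
    have hder : ∀ x ∈ Ioo (0 : ℝ) 1,
        HasDerivAt (fun r : ℝ => -((1 - r ^ 2) ^ (1 - β)) / (2 * (1 - β)))
          (x * (1 - x ^ 2) ^ (-β)) x := by
      intro x hx
      have hx2 : (1 : ℝ) - x ^ 2 ≠ 0 := by
        have : x ^ 2 < 1 := by nlinarith [hx.1, hx.2]
        linarith
      have e1 : HasDerivAt (fun r : ℝ => 1 - r ^ 2) (-(2 * x)) x := by
        have := ((hasDerivAt_id x).pow 2).const_sub 1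
        simpa using this
      have e2 := ((e1.rpow_const (p := 1 - β) (Or.inl hx2)).neg).div_const (2 * (1 - β))
      have e3 : -(-(2 * x) * (1 - β) * (1 - x ^ 2) ^ (1 - β - 1)) / (2 * (1 - β)) =
          x * (1 - x ^ 2) ^ (-β) := by
        rw [show (1 : ℝ) - β - 1 = -β by ring]
        field_simp
      rw [e3] at e2
      exact e2
    have hint : IntervalIntegrable (fun r : ℝ => r * (1 - r ^ 2) ^ (-β)) volume 0 1 := by
      refine intervalIntegral.intervalIntegrable_deriv_of_nonneg hcont.continuousOn ?_ ?_
      · intro x hx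
        rw [min_eq_left zero_le_one, max_eq_right zero_le_one] at hx
        exact hder x hx
      · intro x hx
        rw [min_eq_left zero_le_one, max_eq_right zero_le_one] at hx
        have : 0 ≤ 1 - x ^ 2 := by nlinarith [hx.1, hx.2]
        exact mul_nonneg hx.1.le (Real.rpow_nonneg this _)
    refine ⟨hint, ?_⟩
    rw [intervalIntegral.integral_eq_sub_of_hasDerivAt_of_le zero_le_one hcont.continuousOn
      hder hint]
    simp only [one_pow, sub_self, ne_eq, OfNat.ofNat_ne_zero, not_false_eq_true, zero_pow,
      sub_zero, Real.one_rpow]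
    rw [Real.zero_rpow hb]
    ring

end Pool.Agent.REV.H12
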